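import Pool.Agent.K3h56.E2.Stm
import Pool.Agent.R362.NearOrd3

/-!
# The leading term of the Dedekind zeta function at `s = 0`
-/

set_option autoImplicit false

open NumberField Complex Filter Topology

namespace Pool.Agent.K3h51.E2

section
variable (K : Type) [Field K] [NumberField K]

/-- the product over the embeddings -/
theorem prod_emb (g : ℕ → ℂ) (e : (K →+* ℂ) → ℕ)
    (he : ∀ φ : K →+* ℂ, ((InfinitePlace.mk φ).embedding = φ → e φ = 0) ∧
      ((InfinitePlace.mk φ).embedding ≠ φ → e φ = 1)) :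
    ∏ φ : K →+* ℂ, g (e φ)
      = g 0 ^ Fintype.card (InfinitePlace K) * g 1 ^ InfinitePlace.nrComplexPlaces K := by
  classical
  have hc0 : (Finset.univ.filter
      (fun φ : K →+* ℂ => (InfinitePlace.mk φ).embedding = φ)).card =
      Fintype.card (InfinitePlace K) := by
    have h1 : (Finset.univ.filter
        (fun φ : K →+* ℂ => (InfinitePlace.mk φ).embedding = φ)) =
        (Finset.univ : Finset (InfinitePlace K)).image (fun w => w.embedding) := by
      ext φ
      simp only [Finset.mem_filter, Finset.mem_univ, true_and, Finset.mem_image]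
      constructor
      · intro h
        exact ⟨_, h⟩
      · rintro ⟨w, rfl⟩
        rw [InfinitePlace.mk_embedding]
    rw [h1, Finset.card_image_of_injective _ (InfinitePlace.embedding_injective K),
      Finset.card_univ]
  have hc1 : (Finset.univ.filter
      (fun φ : K →+* ℂ => ¬ (InfinitePlace.mk φ).embedding = φ)).card =
      InfinitePlace.nrComplexPlaces K := by
    have h1 := Finset.card_filter_add_card_filter_not (s := (Finset.univ : Finset (K →+* ℂ)))
      (fun φ : K →+* ℂ => (InfinitePlace.mk φ).embedding = φ)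
    rw [Finset.card_univ, Embeddings.card, hc0] at h1
    have h2 := InfinitePlace.card_add_two_mul_card_eq_rank K
    have h3 := InfinitePlace.card_eq_nrRealPlaces_add_nrComplexPlaces K
    omega
  rw [← Finset.prod_filter_mul_prod_filter_not Finset.univ
    (fun φ : K →+* ℂ => (InfinitePlace.mk φ).embedding = φ)]
  congr 1
  · rw [← hc0, ← Finset.prod_const]
    apply Finset.prod_congr rfl
    intro φ hφ
    rw [(he φ).1 (Finset.mem_filter.1 hφ).2]
  · rw [← hc1, ← Finset.prod_const]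
    apply Finset.prod_congr rfl
    intro φ hφ
    rw [(he φ).2 (Finset.mem_filter.1 hφ).2]

/-- the value at `1` of the completed zeta function -/
theorem val_one (X J : ℂ → ℂ) (hX : Differentiable ℂ X) (hJ : Differentiable ℂ J)
    (hJdef : ∀ s : ℂ, J s = (((discr K).natAbs : ℕ) : ℂ) ^ (-(s / 2)) *
      ((Gammaℝ s)⁻¹ ^ Fintype.card (InfinitePlace K) *
        (Gammaℝ (s + 1))⁻¹ ^ InfinitePlace.nrComplexPlaces K))
    (heq : ∀ s : ℂ, 1 < s.re → X s * J s = s * (s - 1) * dedekindZeta K s) :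
    X 1 = ((2 ^ Fintype.card (InfinitePlace K) * Units.regulator K * (classNumber K) /
      (Units.torsionOrder K) : ℝ) : ℂ) := by
  have hdn : ((discr K).natAbs : ℝ) = |(discr K : ℝ)| := by
    rw [Nat.cast_natAbs, Int.cast_abs]
  have hdpos : 0 < ((discr K).natAbs : ℝ) := by
    rw [hdn]
    exact abs_pos.2 (Int.cast_ne_zero.2 (discr_ne_zero K))
  have hd0 : (((discr K).natAbs : ℕ) : ℂ) ≠ 0 := by
    exact_mod_cast hdpos.ne'
  -- the limit on the right
  have h1 : Tendsto (fun s : ℝ => X s * J s) (𝓝[>] 1) (𝓝 (X 1 * J 1)) := by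
    have hc : Continuous (fun s : ℝ => X s * J s) :=
      (hX.continuous.comp continuous_ofReal).mul (hJ.continuous.comp continuous_ofReal)
    have h2 := (hc.tendsto 1).mono_left (nhdsWithin_le_nhds (s := Set.Ioi (1 : ℝ)))
    simpa using h2
  have h2 : Tendsto (fun s : ℝ => X s * J s) (𝓝[>] 1)
      (𝓝 (((dedekindZeta_residue K : ℝ) : ℂ))) := by
    have h3 := tendsto_sub_one_mul_dedekindZeta_nhdsGT K
    have h4 : Tendsto (fun s : ℝ => (s : ℂ)) (𝓝[>] 1) (𝓝 (1 : ℂ)) := by
      have := (continuous_ofReal.tendsto 1).mono_left (nhdsWithin_le_nhds (s := Set.Ioi (1 : ℝ)))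
      simpa using this
    have h5 := h4.mul h3
    rw [one_mul] at h5
    refine h5.congr' ?_
    filter_upwards [self_mem_nhdsWithin] with s hs
    have hs1 : 1 < (s : ℂ).re := by
      rw [ofReal_re]
      exact hs
    rw [heq (s : ℂ) hs1]
    ring
  have h3 := tendsto_nhds_unique h1 h2
  -- the gamma factors
  have hJ1 : J 1 = (((discr K).natAbs : ℕ) : ℂ) ^ (-((1 : ℂ) / 2)) *
      (Real.pi : ℂ) ^ InfinitePlace.nrComplexPlaces K := by
    rw [hJdef, Gammaℝ_one, inv_one, one_pow, one_mul]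
    congr 2
    rw [show (1 : ℂ) + 1 = 2 by norm_num, Gammaℝ_def]
    rw [show (2 : ℂ) / 2 = 1 by norm_num, show -(2 : ℂ) / 2 = -1 by norm_num, Gamma_one, mul_one,
      cpow_neg_one, inv_inv]
  have hsq : (((discr K).natAbs : ℕ) : ℂ) ^ (-((1 : ℂ) / 2)) =
      (((√|(discr K : ℝ)|)⁻¹ : ℝ) : ℂ) := by
    rw [← hdn, Real.sqrt_eq_rpow, ofReal_inv, ofReal_cpow hdpos.le, cpow_neg]
    push_cast
    rfl
  rw [hJ1, hsq] at h3
  have hsp : 0 < √|(discr K : ℝ)| := by
    rw [← hdn]
    exact Real.sqrt_pos.2 hdpos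
  have hpi := Real.pi_pos
  have hX1 : X 1 = ((dedekindZeta_residue K * √|(discr K : ℝ)| /
      Real.pi ^ InfinitePlace.nrComplexPlaces K : ℝ) : ℂ) := by
    push_cast
    have e1 : ((√|(discr K : ℝ)| : ℝ) : ℂ) ≠ 0 := by exact_mod_cast hsp.ne'
    have e2 : (Real.pi : ℂ) ≠ 0 := by exact_mod_cast hpi.ne'
    rw [← h3]
    push_cast
    field_simp
  rw [hX1, dedekindZeta_residue_def, InfinitePlace.card_eq_nrRealPlaces_add_nrComplexPlaces]
  congr 1
  have ht : (0 : ℝ) < Units.torsionOrder K := by exact_mod_cast Units.torsionOrder_pos K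
  rw [mul_pow, pow_add]
  field_simp

/-- the limit at `0` of the quotient by a power of `s` -/
theorem lim_inf (J : ℂ → ℂ)
    (hJdef : ∀ s : ℂ, J s = (((discr K).natAbs : ℕ) : ℂ) ^ (-(s / 2)) *
      ((Gammaℝ s)⁻¹ ^ Fintype.card (InfinitePlace K) *
        (Gammaℝ (s + 1))⁻¹ ^ InfinitePlace.nrComplexPlaces K)) :
    Tendsto (fun s : ℂ => J s / s ^ Fintype.card (InfinitePlace K)) (𝓝[≠] 0)
      (𝓝 ((2 : ℂ)⁻¹ ^ Fintype.card (InfinitePlace K))) := by
  have hd0 : (((discr K).natAbs : ℕ) : ℂ) ≠ 0 := by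
    exact_mod_cast Int.natAbs_ne_zero.2 (discr_ne_zero K)
  have h1 : Tendsto (fun s : ℂ => (((discr K).natAbs : ℕ) : ℂ) ^ (-(s / 2))) (𝓝[≠] 0) (𝓝 1) := by
    have hc : Continuous (fun s : ℂ => (((discr K).natAbs : ℕ) : ℂ) ^ (-(s / 2))) :=
      Continuous.const_cpow (by fun_prop) (Or.inl hd0)
    have := (hc.tendsto 0).mono_left (nhdsWithin_le_nhds (s := ({0}ᶜ : Set ℂ)))
    simpa using this
  have h2 : Tendsto (fun s : ℂ => ((s * Gammaℝ s)⁻¹) ^ Fintype.card (InfinitePlace K)) (𝓝[≠] 0)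
      (𝓝 ((2 : ℂ)⁻¹ ^ Fintype.card (InfinitePlace K))) :=
    (Gammaℝ_residue_zero.inv₀ two_ne_zero).pow _
  have h3 : Tendsto (fun s : ℂ => (Gammaℝ (s + 1))⁻¹ ^ InfinitePlace.nrComplexPlaces K) (𝓝[≠] 0)
      (𝓝 1) := by
    have hc : Continuous (fun s : ℂ => (Gammaℝ (s + 1))⁻¹) :=
      differentiable_Gammaℝ_inv.continuous.comp (by fun_prop : Continuous (fun s : ℂ => s + 1))
    have hc2 : Tendsto (fun s : ℂ => (Gammaℝ (s + 1))⁻¹ ^ InfinitePlace.nrComplexPlaces K) (𝓝[≠] 0)
        (𝓝 ((Gammaℝ (0 + 1))⁻¹ ^ InfinitePlace.nrComplexPlaces K)) :=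
      ((hc.tendsto 0).mono_left (nhdsWithin_le_nhds (s := ({0}ᶜ : Set ℂ)))).pow _
    rw [zero_add, Gammaℝ_one, inv_one, one_pow] at hc2
    exact hc2
  have h4 := h1.mul (h2.mul h3)
  rw [one_mul, mul_one] at h4
  refine h4.congr fun s => ?_
  rw [hJdef, mul_inv, mul_pow, div_eq_mul_inv, inv_pow s]
  ring

/-- the leading term, from the completed zeta function -/
theorem core (X J : ℂ → ℂ) (hX : Differentiable ℂ X) (hJ : Differentiable ℂ J)
    (hJdef : ∀ s : ℂ, J s = (((discr K).natAbs : ℕ) : ℂ) ^ (-(s / 2)) *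
      ((Gammaℝ s)⁻¹ ^ Fintype.card (InfinitePlace K) *
        (Gammaℝ (s + 1))⁻¹ ^ InfinitePlace.nrComplexPlaces K))
    (heq : ∀ s : ℂ, 1 < s.re → X s * J s = s * (s - 1) * dedekindZeta K s)
    (hfe : ∃ w : ℂ, ‖w‖ = 1 ∧ X 0 = w * (starRingEnd ℂ) (X 1))
    (hconj : (starRingEnd ℂ) (X 0) = X 0) :
    ∃ Z : ℂ → ℂ, ((∀ s : ℂ, s ≠ 1 → DifferentiableAt ℂ Z s) ∧
      ∀ s : ℂ, 1 < s.re → Z s = dedekindZeta K s) ∧ ∃ q : ℚ, q ≠ 0 ∧
      Tendsto (fun s : ℂ => (s ^ (Fintype.card (InfinitePlace K) - 1))⁻¹ * Z s) (𝓝[≠] 0)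
        (𝓝 ((q : ℂ) * ((Units.regulator K : ℝ) : ℂ))) := by
  have hn : 0 < Fintype.card (InfinitePlace K) := Fintype.card_pos
  have hJ0 : J 0 = 0 := by
    rw [hJdef]
    have : Gammaℝ 0 = 0 := Gammaℝ_eq_zero_iff.2 ⟨0, by simp⟩
    rw [this, inv_zero, zero_pow hn.ne', zero_mul, mul_zero]
  have hXJ : Differentiable ℂ (fun s => X s * J s) := hX.mul hJ
  have hds : Differentiable ℂ (dslope (fun s => X s * J s) 0) := by
    rw [← differentiableOn_univ]
    exact (Complex.differentiableOn_dslope Filter.univ_mem).2 hXJ.differentiableOn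
  have hval : ∀ s : ℂ, s ≠ 0 → dslope (fun s => X s * J s) 0 s / (s - 1) =
      X s * J s / s / (s - 1) := by
    intro s hs
    rw [dslope_of_ne _ hs, slope_def_field, hJ0, mul_zero, sub_zero, sub_zero]
  refine ⟨fun s => dslope (fun s => X s * J s) 0 s / (s - 1), ⟨?_, ?_⟩, ?_⟩
  · intro s hs
    exact (hds s).div (by fun_prop) (sub_ne_zero.2 hs)
  · intro s hs
    have hs0 : s ≠ 0 := fun h0 => by rw [h0] at hs; norm_num at hs
    have hs1 : s - 1 ≠ 0 := sub_ne_zero.2 fun h0 => by rw [h0] at hs; norm_num at hs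
    simp only
    rw [hval s hs0, heq s hs]
    field_simp
  · -- the value of `X` at `0`
    have hX1 := val_one K X J hX hJ hJdef heq
    obtain ⟨w, hw, hfe⟩ := hfe
    obtain ⟨v, hv⟩ : ∃ v : ℝ, v = 2 ^ Fintype.card (InfinitePlace K) * Units.regulator K *
      (classNumber K) / (Units.torsionOrder K) := ⟨_, rfl⟩
    rw [← hv] at hX1
    have hvpos : 0 < v := by
      have h1 := Units.regulator_pos K
      have h2 : (0 : ℝ) < classNumber K := by exact_mod_cast classNumber_pos K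
      have h3 : (0 : ℝ) < Units.torsionOrder K := by exact_mod_cast Units.torsionOrder_pos K
      rw [hv]
      positivity
    have hX0 : ∃ ε : ℚ, ε ≠ 0 ∧ X 0 = (ε : ℂ) * (v : ℂ) := by
      rw [hX1, conj_ofReal] at hfe
      obtain ⟨x, hx⟩ : ∃ x : ℝ, X 0 = (x : ℂ) := (Complex.conj_eq_iff_real.1 hconj)
      have h1 : |x| = v := by
        have h2 : ‖X 0‖ = v := by
          rw [hfe, norm_mul, hw, one_mul, Complex.norm_real, Real.norm_eq_abs, abs_of_pos hvpos]
        rw [hx, Complex.norm_real, Real.norm_eq_abs] at h2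
        exact h2
      rcases abs_choice x with h2 | h2
      · refine ⟨1, one_ne_zero, ?_⟩
        rw [hx, ← h1, h2]
        simp
      · refine ⟨-1, by norm_num, ?_⟩
        rw [hx, ← h1, h2]
        simp
    obtain ⟨ε, hε, hX0⟩ := hX0
    refine ⟨-ε * (classNumber K) / (Units.torsionOrder K), ?_, ?_⟩
    · have h2 : (classNumber K : ℚ) ≠ 0 := by exact_mod_cast (classNumber_pos K).ne'
      have h3 : (Units.torsionOrder K : ℚ) ≠ 0 := by exact_mod_cast (Units.torsionOrder_pos K).ne'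
      exact div_ne_zero (mul_ne_zero (neg_ne_zero.2 hε) h2) h3
    · have h1 : Tendsto (fun s : ℂ => X s / (s - 1)) (𝓝[≠] 0) (𝓝 (X 0 / (0 - 1))) := by
        have hc : ContinuousAt (fun s : ℂ => X s / (s - 1)) 0 :=
          ((hX 0).div (by fun_prop) (by norm_num)).continuousAt
        exact hc.tendsto.mono_left (nhdsWithin_le_nhds (s := ({0}ᶜ : Set ℂ)))
      have h2 := h1.mul (lim_inf K J hJdef)
      have h3 : X 0 / (0 - 1) * (2 : ℂ)⁻¹ ^ Fintype.card (InfinitePlace K) =
          (((-ε * (classNumber K) / (Units.torsionOrder K) : ℚ)) : ℂ) *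
            ((Units.regulator K : ℝ) : ℂ) := by
        have ht : (Units.torsionOrder K : ℂ) ≠ 0 := by
          exact_mod_cast (Units.torsionOrder_pos K).ne'
        rw [hX0, hv]
        push_cast
        rw [inv_pow]
        field_simp
        ring
      rw [h3] at h2
      refine h2.congr' ?_
      filter_upwards [self_mem_nhdsWithin] with s hs
      have hs0 : s ≠ 0 := hs
      rw [hval s hs0]
      have h4 : s ^ Fintype.card (InfinitePlace K) =
          s ^ (Fintype.card (InfinitePlace K) - 1) * s := by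
        rw [← pow_succ, Nat.sub_add_cancel hn]
      rw [h4]
      have h5 : s ^ (Fintype.card (InfinitePlace K) - 1) ≠ 0 := pow_ne_zero _ hs0
      field_simp

end

open Pool.Agent.K3h56.E2 Pool.Agent.R362.Near Pool.Agent.R362.HL
open Pool.Agent.Y773 Pool.Agent.Y773.G

theorem inf_form (K : Type) [Field K] [NumberField K] (s : ℂ) :
    inf K s = (((discr K).natAbs : ℕ) : ℂ) ^ (-(s / 2)) *
      ((Gammaℝ s)⁻¹ ^ Fintype.card (InfinitePlace K) *
        (Gammaℝ (s + 1))⁻¹ ^ InfinitePlace.nrComplexPlaces K) := by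
  have h1 := prod_emb K (fun k : ℕ => (Gammaℝ (s + (k : ℕ)))⁻¹)
    (fun φ => ex (fun _ : InfinitePlace K => 0) φ) (by
      intro φ
      constructor
      · intro h
        simp only [ex]
        rw [if_pos h]
        split_ifs <;> rfl
      · intro h
        have h2 : ¬ (InfinitePlace.mk φ).IsReal := by
          intro h3
          apply h
          exact InfinitePlace.embedding_mk_eq_of_isReal (InfinitePlace.isReal_mk_iff.1 h3)
        simp only [ex]
        rw [if_neg h2, if_neg h])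
  simp only [Nat.cast_zero, add_zero, Nat.cast_one] at h1
  unfold inf
  rw [Complex.ofReal_natCast]
  congr 1

theorem t_ZETA0 : S_ZETA0 := by
  intro K _ _
  obtain ⟨X, hX⟩ := exists_xi K
  have h : IsXi K X := hX
  refine core K X (inf K) h.diff inf_diff (inf_form K) ?_ ?_ ?_
  · intro z hz1
    have hR : ((((discr K).natAbs : ℕ) : ℝ) : ℂ) ≠ 0 := by
      have := NumberField.discr_ne_zero K
      have h1 : (discr K).natAbs ≠ 0 := Int.natAbs_ne_zero.2 this
      exact_mod_cast h1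
    rw [h.eq z hz1, ← LI_zeta hz1, inf, Finset.prod_inv_distrib, Complex.cpow_neg, pow_one]
    have hp : ∏ φ : K →+* ℂ, Gammaℝ (z + (ex (fun _ : InfinitePlace K => 0) φ : ℕ)) ≠ 0 :=
      Finset.prod_ne_zero_iff.2 fun φ _ => Gammaℝ_ne_zero_of_re_pos (by
        rw [Complex.add_re, Complex.natCast_re]
        have : (0 : ℝ) ≤ (ex (fun _ : InfinitePlace K => 0) φ : ℕ) := Nat.cast_nonneg _
        linarith)
    have hc : ((((discr K).natAbs : ℕ) : ℝ) : ℂ) ^ (z / 2) ≠ 0 := by
      rw [Ne, Complex.cpow_eq_zero_iff]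
      exact fun h => hR h.1
    field_simp
  · obtain ⟨w, hw, hfe⟩ := h.fe
    refine ⟨w, hw, ?_⟩
    have h1 := hfe 0
    rw [map_zero, sub_zero] at h1
    exact h1
  · have h1 := h.conj 0
    rw [map_zero] at h1
    exact h1.symm

end Pool.Agent.K3h51.E2
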